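import Pool.Agent.Helper8.Kak.DefsD
import Pool.Agent.Helper31.Kak.D1
import Pool.Agent.Helper31.Kak.D3
import Pool.Agent.Helper31.Kak.D4

/-! Module D5 (problem MP_013a6c_an). -/

open MeasureTheory Set Topology Filter
open scoped symmDiff ENNReal ProbabilityTheory

namespace KakC

section
variable {Z : Type*} [MeasurableSpace Z] [StandardBorelSpace Z] [MulAction (Equiv.Perm ℕ) Z]

theorem D5_analytic {α : Type*} [TopologicalSpace α] [PolishSpace α]
    [MeasurableSpace α] [BorelSpace α]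
    (hZ : Measurable (fun p : Equiv.Perm ℕ × Z => p.1 • p.2)) {u v : α → Z}
    (hu : Measurable u) (hv : Measurable v) (n : ℕ) :
    AnalyticSet {p : α | ∃ w ∈ Stab n, w • u p = v p} := by
  have := perm_polish
  have hst : MeasurableSet {q : α × Equiv.Perm ℕ | q.2 ∈ Stab n} := by
    have h1 : IsOpen {σ : Equiv.Perm ℕ | ∀ i < n, σ i = i} := perm_isOpen_cyl n id
    exact h1.measurableSet.preimage measurable_snd
  have heq : MeasurableSet {q : α × Equiv.Perm ℕ | q.2 • u q.1 = v q.1} := by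
    have h1 : Measurable (fun q : α × Equiv.Perm ℕ => q.2 • u q.1) :=
      hZ.comp (measurable_snd.prodMk (hu.comp measurable_fst))
    exact measurableSet_eq_fun h1 (hv.comp measurable_fst)
  have han := ((hst.inter heq).analyticSet).image_of_continuous
    (continuous_fst : Continuous (Prod.fst : α × Equiv.Perm ℕ → α))
  convert han using 1
  ext p
  constructor
  · rintro ⟨w, hw, h⟩
    exact ⟨(p, w), ⟨hw, h⟩, rfl⟩
  · rintro ⟨⟨p', w⟩, ⟨hw, h⟩, rfl⟩
    exact ⟨w, hw, h⟩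

/-- Module D5 (a). Uses D1, D3, D4. -/
theorem RS_baire (hZ : Measurable (fun p : Equiv.Perm ℕ × Z => p.1 • p.2))
    {f : (ℕ → ℝ) → Z} (hf : Measurable f) (n : ℕ) :
    BaireMeasurableSet {p : (ℕ → ℝ) × Gl | RS f n p.1 (p.1 + p.2)} := by
  have := gl_polish
  apply analytic_baire
  borelize Gl
  refine D5_analytic hZ (u := fun p : (ℕ → ℝ) × Gl => f p.1)
    (v := fun p : (ℕ → ℝ) × Gl => f (p.1 + p.2)) (hf.comp measurable_fst) (hf.comp ?_) n
  have hc : Continuous (fun p : (ℕ → ℝ) × Gl => p.1 + (p.2 : ℕ → ℝ)) :=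
    continuous_fst.add (gl_coe_continuous.comp continuous_snd)
  exact hc.measurable

/-- Module D5 (b). Uses D1, D3, D4. -/
theorem RS_local (hZ : Measurable (fun p : Equiv.Perm ℕ × Z => p.1 • p.2))
    {f : (ℕ → ℝ) → Z} (hf : Measurable f)
    (hE : ∀ (x : ℕ → ℝ) (g : Gl), ∃ σ : Equiv.Perm ℕ, σ • f x = f (x + g)) (n : ℕ) (x : ℕ → ℝ) :
    ∀ᶠ (g : Gl) in residual Gl, ∃ ρ : ℝ, 0 < ρ ∧ ∀ᶠ (g' : Gl) in residual Gl, ‖g'‖ < ρ →
      RS f n (x + g) (x + g + g') := by
  have := gl_polish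
  classical
  let r : Equiv.Perm ℕ → (Fin n → ℕ) := fun τ i => τ⁻¹ i
  let R : (Fin n → ℕ) → Equiv.Perm ℕ := Function.invFun r
  have hR : ∀ τ, r (R (r τ)) = r τ := fun τ => Function.invFun_eq ⟨τ, rfl⟩
  let S : (Fin n → ℕ) → Set Gl := fun v => {g | ∃ w ∈ Stab n, w • (R v • f x) = f (x + g)}
  have hS : ∀ v, BaireMeasurableSet (S v) := by
    intro v
    apply analytic_baire
    borelize Gl
    refine D5_analytic hZ (u := fun _ : Gl => R v • f x)
      (v := fun g : Gl => f (x + g)) measurable_const (hf.comp ?_) n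
    have hc : Continuous (fun g : Gl => x + (g : ℕ → ℝ)) :=
      continuous_const.add gl_coe_continuous
    exact hc.measurable
  have hV : ∀ v, ∃ V : Set Gl, IsOpen V ∧ S v =ᶠ[residual Gl] V := fun v =>
    (hS v).residualEq_isOpen
  choose V hVo hVe using hV
  have hcov : ∀ g : Gl, ∃ v, g ∈ S v := by
    intro g
    obtain ⟨σ, hσ⟩ := hE x g
    refine ⟨r σ, σ * (R (r σ))⁻¹, ?_, ?_⟩
    · intro i hi
      have h1 : (R (r σ))⁻¹ i = σ⁻¹ i := congrFun (hR σ) ⟨i, hi⟩
      rw [Equiv.Perm.mul_apply, h1]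
      simp
    · rw [smul_smul, inv_mul_cancel_right, hσ]
  have hall : ∀ᶠ g in residual Gl, ∀ v, g ∈ S v ↔ g ∈ V v := by
    rw [eventually_countable_forall]
    intro v
    filter_upwards [hVe v] with g hg
    exact iff_of_eq hg
  filter_upwards [hall] with g hg
  obtain ⟨v, hv⟩ := hcov g
  have hgV : g ∈ V v := (hg v).1 hv
  obtain ⟨ρ, hρ, hball⟩ := Metric.isOpen_iff.1 (hVo v) g hgV
  refine ⟨ρ, hρ, ?_⟩
  have htr : Tendsto (fun g' : Gl => g + g') (residual Gl) (residual Gl) :=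
    tendsto_residual_of_isOpenMap (Homeomorph.addLeft g).continuous
      (Homeomorph.addLeft g).isOpenMap
  filter_upwards [htr.eventually hall] with g' hg' hn
  have h1 : g + g' ∈ S v := by
    rw [hg' v]
    apply hball
    rw [Metric.mem_ball, dist_eq_norm, add_sub_cancel_left]
    exact hn
  obtain ⟨w, hw, hw'⟩ := hv
  obtain ⟨w₁, hw₁, hw₁'⟩ := h1
  refine ⟨w₁ * w⁻¹, (Stab n).mul_mem hw₁ ((Stab n).inv_mem hw), ?_⟩
  rw [← hw', smul_smul, inv_mul_cancel_right, hw₁', lp.coeFn_add, add_assoc]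

end

end KakC
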