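import Pool.Agent.Helper8.Kak.DefsD
import Pool.Agent.Helper81.Kak.D2
import Pool.Agent.Helper31.Kak.D3

/-! Module D8 (problem MP_013a6c_an). -/

open MeasureTheory Set Topology Filter
open scoped symmDiff ENNReal ProbabilityTheory

namespace KakC

section
variable {Z : Type*} [MeasurableSpace Z] [StandardBorelSpace Z] [MulAction (Equiv.Perm ℕ) Z]

omit [MeasurableSpace Z] [StandardBorelSpace Z] in
theorem Str_smul (𝒜 : ℕ → Set Z) (z : Z) (n : ℕ) (s : List ℕ) (σ : Equiv.Perm ℕ) :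
    Str 𝒜 (σ • z) n (s.map σ) ↔ Str 𝒜 z n s := by
  have := perm_group
  have h1 : (residual (Equiv.Perm ℕ)).map (fun g => σ * g) = residual (Equiv.Perm ℕ) :=
    (Homeomorph.mulLeft σ).residual_map_eq
  unfold Str
  conv_lhs => rw [← h1]
  rw [eventually_map]
  refine eventually_congr (Eventually.of_forall fun g => ?_)
  have h2 : (∀ (i : ℕ) (hi : i < (s.map σ).length), (σ * g) i = (s.map σ)[i]) ↔
      ∀ (i : ℕ) (hi : i < s.length), g i = s[i] := by
    constructor
    · intro h i hi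
      have := h i (by simpa using hi)
      rw [List.getElem_map, Equiv.Perm.mul_apply] at this
      exact σ.injective this
    · intro h i hi
      rw [List.getElem_map, Equiv.Perm.mul_apply, h i (by simpa using hi)]
  rw [h2, smul_smul, mul_inv_rev, inv_mul_cancel_right]

omit [StandardBorelSpace Z] in
theorem D8_meas (hZ : Measurable (fun p : Equiv.Perm ℕ × Z => p.1 • p.2)) {α : Type*}
    [MeasurableSpace α] {u : α → Equiv.Perm ℕ} {v : α → Z} (hu : Measurable u)
    (hv : Measurable v) : Measurable (fun x => (u x)⁻¹ • v x) := by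
  have := perm_group
  have := perm_polish
  exact hZ.comp ((continuous_inv.measurable.comp hu).prodMk hv)

theorem D8_generic (hZ : Measurable (fun p : Equiv.Perm ℕ × Z => p.1 • p.2)) {𝒜 : ℕ → Set Z}
    (h𝒜 : ∀ n, MeasurableSet (𝒜 n)) (z : Z) :
    ∀ᶠ (g : Equiv.Perm ℕ) in residual (Equiv.Perm ℕ), ∀ n, g⁻¹ • z ∈ 𝒜 n ↔
      ∃ k, Str 𝒜 z n ((List.range k).map g) := by
  have := perm_polish
  rw [eventually_countable_forall]
  intro n
  have hB : BaireMeasurableSet {g : Equiv.Perm ℕ | g⁻¹ • z ∈ 𝒜 n} :=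
    ((h𝒜 n).preimage (D8_meas hZ measurable_id measurable_const)).baireMeasurableSet
  obtain ⟨O, hO, hBO⟩ := hB.residualEq_isOpen
  have hBO' : ∀ᶠ (g : Equiv.Perm ℕ) in residual (Equiv.Perm ℕ), (g⁻¹ • z ∈ 𝒜 n ↔ g ∈ O) := by
    filter_upwards [hBO] with g hg
    exact iff_of_eq hg
  have hall : ∀ᶠ (g : Equiv.Perm ℕ) in residual (Equiv.Perm ℕ), ∀ s : List ℕ, Str 𝒜 z n s →
      (∀ (i : ℕ) (hi : i < s.length), g i = s[i]) → g⁻¹ • z ∈ 𝒜 n := by
    rw [eventually_countable_forall]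
    intro s
    by_cases hs : Str 𝒜 z n s
    · filter_upwards [hs] with g hg _
      exact hg
    · exact Eventually.of_forall fun g h => absurd h hs
  filter_upwards [hBO', hall] with g hg hg'
  constructor
  · intro h
    obtain ⟨k, hk⟩ := perm_basis hO (hg.1 h)
    refine ⟨k, ?_⟩
    unfold Str
    filter_upwards [hBO'] with τ hτ hτ'
    rw [hτ]
    apply hk
    intro i hi
    have := hτ' i (by simpa using hi)
    simpa using this
  · rintro ⟨k, hk⟩
    refine hg' _ hk ?_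
    intro i hi
    simp

theorem Str_inj (hZ : Measurable (fun p : Equiv.Perm ℕ × Z => p.1 • p.2)) {𝒜 : ℕ → Set Z}
    (h𝒜 : ∀ n, MeasurableSet (𝒜 n)) (hsep : ∀ z z' : Z, (∀ n, z ∈ 𝒜 n ↔ z' ∈ 𝒜 n) → z = z')
    {z z' : Z} (h : ∀ n s, Str 𝒜 z n s ↔ Str 𝒜 z' n s) : z = z' := by
  have := perm_polish
  have h1 := (D8_generic hZ h𝒜 z).and (D8_generic hZ h𝒜 z')
  obtain ⟨g, hg, hg'⟩ := (dense_of_mem_residual h1).nonempty
  have h2 : g⁻¹ • z = g⁻¹ • z' := by
    apply hsep
    intro n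
    rw [hg n, hg' n]
    exact exists_congr fun k => h n _
  exact (MulAction.injective g⁻¹) h2

theorem Str_baire (hZ : Measurable (fun p : Equiv.Perm ℕ × Z => p.1 • p.2)) {𝒜 : ℕ → Set Z}
    (h𝒜 : ∀ n, MeasurableSet (𝒜 n)) {f : (ℕ → ℝ) → Z} (hf : Measurable f) (n : ℕ) (s : List ℕ) :
    BaireMeasurableSet {x : ℕ → ℝ | Str 𝒜 (f x) n s} := by
  have := perm_polish
  have hS : MeasurableSet {p : (ℕ → ℝ) × Equiv.Perm ℕ | p.2⁻¹ • f p.1 ∈ 𝒜 n} :=
    (h𝒜 n).preimage (D8_meas hZ measurable_snd (hf.comp measurable_fst))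
  have hV : IsOpen {g : Equiv.Perm ℕ | ∀ (i : ℕ) (hi : i < s.length), g i = s[i]} := by
    convert perm_isOpen_cyl s.length (fun i => s.getD i 0) using 3 with g
    refine forall_congr' fun i => forall_congr' fun hi => ?_
    rw [List.getD_eq_getElem _ _ hi]
  exact ku_baire hS.baireMeasurableSet hV

end

end KakC
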