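import Pool.Agent.Helper8.Kak.DefsD
import Pool.Agent.Helper81.Kak.D2
import Pool.Agent.Helper31.Kak.D4
import Pool.Agent.Helper81.Kak.D7

/-! Module D9 (problem MP_013a6c_an). -/

open MeasureTheory Set Topology Filter
open scoped symmDiff ENNReal ProbabilityTheory

namespace KakC

section
variable {Z : Type*} [MeasurableSpace Z] [StandardBorelSpace Z] [MulAction (Equiv.Perm ℕ) Z]

/-- the sets `C_j` -/
def D9C (C₀ : Set (ℕ → ℝ)) : ℕ → Set (ℕ → ℝ)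
  | 0 => C₀
  | j + 1 => {x | x ∈ D9C C₀ j ∧ ∀ᶠ (g : Gl) in residual Gl, x + (g : ℕ → ℝ) ∈ D9C C₀ j}

theorem D9_stable {C₀ : Set (ℕ → ℝ)} (h0 : C₀ ∈ residual (ℕ → ℝ)) :
    ∃ C ∈ residual (ℕ → ℝ), C ⊆ C₀ ∧
      ∀ x ∈ C, ∀ᶠ (g : Gl) in residual Gl, x + (g : ℕ → ℝ) ∈ C := by
  have := gl_polish
  have hres : ∀ j, D9C C₀ j ∈ residual (ℕ → ℝ) := by
    intro j
    induction j with
    | zero => exact h0
    | succ j ih =>
      have h1 : ∀ᶠ x in residual (ℕ → ℝ), x ∈ D9C C₀ j := ih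
      have h2 := ku (gl_add_residual h1)
      filter_upwards [h1, h2] with x hx hx'
      exact ⟨hx, hx'⟩
  refine ⟨⋂ j, D9C C₀ j, countable_iInter_mem.2 hres, iInter_subset _ 0, ?_⟩
  intro x hx
  rw [mem_iInter] at hx
  have h3 : ∀ᶠ (g : Gl) in residual Gl, ∀ j, x + (g : ℕ → ℝ) ∈ D9C C₀ j := by
    rw [eventually_countable_forall]
    intro j
    exact (hx (j + 1)).2
  filter_upwards [h3] with g hg
  exact mem_iInter.2 hg

/-- Module D9. Uses D2, D4, D7: the comeager set of good points. -/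
theorem good_set {f : (ℕ → ℝ) → Z}
    (h : ∀ n, ∀ᶠ x in residual (ℕ → ℝ), ∃ U : Set (ℕ → ℝ), IsOpen U ∧ x ∈ U ∧ ∃ ρ : ℝ, 0 < ρ ∧
      ∀ᶠ x' in residual (ℕ → ℝ), x' ∈ U → ∀ᶠ (g : Gl) in residual Gl, ‖g‖ < ρ →
        RS f n x' (x' + g))
    {ι : Type} [Countable ι] (S : ι → Set (ℕ → ℝ)) (hS : ∀ i, BaireMeasurableSet (S i)) :
    ∃ C ∈ residual (ℕ → ℝ), (∀ x ∈ C, ∀ᶠ (g : Gl) in residual Gl, x + (g : ℕ → ℝ) ∈ C) ∧
      (∀ x ∈ C, ∀ i, ∃ U : Set (ℕ → ℝ), IsOpen U ∧ x ∈ U ∧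
        ∀ y ∈ C, y ∈ U → (x ∈ S i ↔ y ∈ S i)) ∧
      (∀ x ∈ C, ∀ n, ∃ U : Set (ℕ → ℝ), IsOpen U ∧ x ∈ U ∧
        ∀ V ⊆ U, IsOpen V → Convex ℝ V → ∀ y ∈ C, y ∈ V → ∀ U' : Set (ℕ → ℝ), IsOpen U' →
          (U' ∩ V).Nonempty →
          ∃ g : Gl, y + (g : ℕ → ℝ) ∈ C ∧ y + (g : ℕ → ℝ) ∈ U' ∧ y + (g : ℕ → ℝ) ∈ V ∧
            RS f n y (y + g)) := by
  classical
  let 𝒰 := TopologicalSpace.countableBasis (ℕ → ℝ)
  have h𝒰c : 𝒰.Countable := TopologicalSpace.countable_countableBasis _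
  have h𝒰 : TopologicalSpace.IsTopologicalBasis 𝒰 := TopologicalSpace.isBasis_countableBasis _
  let good : ℕ → Set (ℕ → ℝ) → ℕ → Prop := fun n U m =>
    ∀ᶠ x' in residual (ℕ → ℝ), x' ∈ U → ∀ᶠ (g : Gl) in residual Gl, ‖g‖ < 1 / ((m : ℝ) + 1) →
      RS f n x' (x' + g)
  choose O hO hSO using fun i => (hS i).residualEq_isOpen
  -- (1)
  have e1 : ∀ᶠ x in residual (ℕ → ℝ), ∀ n, ∀ U : 𝒰, ∀ m, good n U m → x ∈ (U : Set (ℕ → ℝ)) →
      ∀ᶠ (g : Gl) in residual Gl, ‖g‖ < 1 / ((m : ℝ) + 1) → RS f n x (x + g) := by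
    have : Countable 𝒰 := h𝒰c.to_subtype
    rw [eventually_countable_forall]
    intro n
    rw [eventually_countable_forall]
    intro U
    rw [eventually_countable_forall]
    intro m
    by_cases hg : good n U m
    · filter_upwards [hg] with x hx _ hxU
      exact hx hxU
    · exact Eventually.of_forall fun x h' => absurd h' hg
  -- (2)
  have e2 : ∀ᶠ x in residual (ℕ → ℝ), ∀ n, ∃ U : 𝒰, ∃ m, good n U m ∧
      x ∈ (U : Set (ℕ → ℝ)) := by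
    rw [eventually_countable_forall]
    intro n
    filter_upwards [h n] with x hx
    obtain ⟨U, hU, hxU, ρ, hρ, hgd⟩ := hx
    obtain ⟨U₀, hU₀, hxU₀, hsub⟩ := h𝒰.exists_subset_of_mem_open hxU hU
    obtain ⟨m, hm⟩ := exists_nat_one_div_lt hρ
    refine ⟨⟨U₀, hU₀⟩, m, ?_, hxU₀⟩
    filter_upwards [hgd] with x' hx' hx'U
    filter_upwards [hx' (hsub hx'U)] with g hg hgn
    exact hg (hgn.trans hm)
  -- (3)
  have e3 : ∀ᶠ x in residual (ℕ → ℝ), ∀ i, (x ∈ S i ↔ x ∈ O i) ∧ x ∉ frontier (O i) := by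
    rw [eventually_countable_forall]
    intro i
    have h1 : ∀ᶠ x in residual (ℕ → ℝ), x ∈ (frontier (O i))ᶜ := by
      have h2 : Dense (frontier (O i))ᶜ := by
        rw [← interior_eq_empty_iff_dense_compl, ← frontier_compl]
        exact interior_frontier (hO i).isClosed_compl
      exact residual_of_dense_open isClosed_frontier.isOpen_compl h2
    filter_upwards [hSO i, h1] with x hx hx'
    exact ⟨iff_of_eq hx, hx'⟩
  obtain ⟨C, hC, hCC, hCs⟩ := D9_stable ((e1.and e2).and e3)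
  refine ⟨C, hC, hCs, ?_, ?_⟩
  · intro x hx i
    have hx3 := (hCC hx).2 i
    by_cases hxO : x ∈ O i
    · refine ⟨O i, hO i, hxO, fun y hy hyO => ?_⟩
      rw [hx3.1, ((hCC hy).2 i).1]
      exact iff_of_true hxO hyO
    · refine ⟨(closure (O i))ᶜ, isClosed_closure.isOpen_compl, ?_, fun y hy hyO => ?_⟩
      · intro hcl
        apply hx3.2
        rw [(hO i).frontier_eq]
        exact ⟨hcl, hxO⟩
      · rw [hx3.1, ((hCC hy).2 i).1]
        exact iff_of_false hxO fun hy' => hyO (subset_closure hy')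
  · intro x hx n
    obtain ⟨U, m, hgd, hxU⟩ := (hCC hx).1.2 n
    refine ⟨U, h𝒰.isOpen U.2, hxU, ?_⟩
    intro V hVU hV hVc y hy hyV U' hU' hne
    refine chain n hV hVc (ρ := 1 / ((m : ℝ) + 1)) (by positivity) hCs ?_ hy hyV hU' hne
    intro z hz hzV
    exact (hCC hz).1.1 n U m hgd (hVU hzV)

end

end KakC
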